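import Pool.Agent.L7lead.PoleFive

/-!
# Tate's formula for the orders of the zeta functions of abelian varieties of dimension at most five,
and of products of elliptic curves and abelian surfaces

Let `Y` be an abelian variety over the field with `q` elements. By Honda and Tate it is isogenous, over
an algebraic closure, to the reduction of a product of abelian varieties of CM type, with Frobenius
elements that satisfy the formula of Shimura and Taniyama (`RedAV`). Suppose (`IsGoodAVS`) that

* the dimension of `Y` is at most five, or
* `Y` is isogenous over an algebraic closure to a product of abelian varieties of dimension at most
  three, such that for any two nonisogenous ones which are not supersingular, of dimension three,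
  and whose CM fields have the same Galois closure, these fields are Galois over `ℚ`, and of a
  supersingular abelian variety of any dimension. So `Y` may be **any product of elliptic curves and
  abelian surfaces**, of any dimension and with any Newton polygon.

Then for all `s > 0` and all `n ≥ 0` the order at `z = n` of the zeta function of `Y` over the field
with `q ^ s` elements is the negative of the rank of the group of cycles of codimension `n` modulo
numerical equivalence.

The zeta function is `∏ det (1 - q ^ (- s z) F ^ s | H^j(Y)) ^ ((-1) ^ (j + 1))`; here `H^j(Y)` is the dual
of the `j`-th exterior power of the Tate module. The rank is computed by the intersection pairing
between the classes in the system `AlgS` (over the field with `q ^ s` elements) of codimension `n` and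
of codimension `dim Y - n`. This system is generated by the Tate classes of degree two, by the reductions
of the split Weil classes on abelian fourfolds and sixfolds of CM type, and by the reductions of the
Hodge classes of degree four on products of elliptic curves and abelian surfaces of CM type, all
algebraic, by theorems of Tate, Markman and Ramón Marí; since it contains all Tate classes these are
all the classes of algebraic cycles.

The starting results `MP_950c68_ag.UpToDimensionFive` and `MP_950c68_ag.FiveAndSurfacesTimesVarieties`
are about Tate classes. For the order of the zeta function one needs in addition that the Frobenius
endomorphism is semisimple, that there is no cancellation between the degrees, and that homological and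
numerical equivalence agree: the intersection pairing between complementary codimensions is
nondegenerate on the Tate classes.
-/

set_option autoImplicit false

namespace Pool.Agent.Results.MP_557161_ag.AbelianUpToDimensionFive

open Pool.Agent.W495.TA Pool.Agent.Y137.GN Pool.Agent.L7lead.PoleFive

/-- **Tate's formula** for the abelian varieties of dimension at most five, and for the products of
elliptic curves and abelian surfaces, over finite fields: over the extension of degree `s` of the ground
field the order of the zeta function at `n` is the negative of the rank of the group of cycles of
codimension `n` modulo numerical equivalence. -/
theorem result (p : ℕ) [Fact p.Prime] (ν : PadicAlgCl p ≃+* ℂ) (Ω : Type) [Field Ω]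
    [IsAlgClosed Ω] [CharZero Ω] (Y : RedAV p ν) (hY : IsGoodAVS Y) (s : ℕ) (hs : 0 < s) (n : ℕ) :
    meromorphicOrderAt (zetaOf Y s) (n : ℂ) = ((-(numRank Ω Y s n : ℤ) : ℤ) : WithTop ℤ) :=
  (main Ω Y hY s hs n).1

end Pool.Agent.Results.MP_557161_ag.AbelianUpToDimensionFive
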