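import Pool.Agent.L7h85.SB.Laws

/-!
# MP_557161_ag: the formula of Tate up to a polynomial factor, in all codimensions

Let `X` be a smooth projective variety of dimension `d` over an algebraic closure of a finite field
for which the Lefschetz standard conjecture holds (for example an abelian variety, a curve, a surface,
a complete intersection, or a product of such varieties), with total Betti number `b`, and let `U` be
an arbitrary smooth projective variety with total Betti number `b(U)`. The formula of Tate for
`Z_n = X ^ (2 n + 2) × U` and the codimension `c` says that the order `z` of the pole at `s = c` of the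
zeta function of `Z_n` over all sufficiently large finite fields is the rank `r` of the group of cycles
of codimension `c` on `Z_n` modulo numerical equivalence.

**Theorem.** For all `n`, and for **all codimensions** `c ≤ dim Z_n`,

  `0 < r ≤ z ≤ b_{2c}(Z_n) ≤ b(U) b ^ (2 d) (2 n + 4) ^ (6 d + 2) (n + 2) ^ (b ^ 2) r`.

So the formula of Tate holds for all the integers `c` up to a factor that is polynomial in `n`, while
the numbers themselves grow exponentially with `n` (for `0 < ε n ≤ c ≤ dim Z_n - ε n`). The odd powers
are the case `X × U` in place of `U`.

(The earlier result `PolynomialFactor` for this problem is about arbitrary `X` and the `dim U + 1`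
codimensions next to the middle one `(n + 1) d`. Away from the middle, cycles are correspondences of a
nonzero degree, and the Lefschetz standard conjecture is used to compare them with those of degree
zero. The new point is the following: the group algebra of the symmetric group acts on `H^e(X^m)`, for
every `e`, with a centraliser of polynomial size, hence `b_e(X^m) ^ 2` is at most the rank of the
correspondences of degree zero of `H^e(X^m)` times a polynomial; by duality the latter is the rank of
the cycles of codimension `e` on `X^m × X^m`; and `b_{2c}(X^(2m) × U)` is at most a polynomial times
`b_c(X^m)^2`, after changing `m` and `c` by a bounded amount, because the coefficients of powers of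
polynomials with non-negative coefficients are approximately logarithmically concave.)

`RiemannHyp Φ σ X` says that the eigenvalues of Frobenius on `H^i(X)` have the absolute value
`q ^ (i / 2)`; it is a condition on the varieties `X` and `U` only (all smooth projective varieties
satisfy it, by the theorem of Deligne; nothing is assumed for other varieties).
-/

set_option autoImplicit false

open CategoryTheory AlgebraicGeometry

universe u v

namespace Pool.Agent.Results.MP_557161_ag.AllCodimensions

open Pool.Agent.H914 Pool.Agent.W534 Pool.Agent.Y163 Pool.Agent.L7h85.AC VarClass Obj
  WeilCohomology

/-- **The formula of Tate up to a polynomial factor in all codimensions**: for all `X` for which the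
Lefschetz standard conjecture holds and all `U`, all `n` and all `c`, the order of the pole at `c` of
the zeta function of `sq X n × U = X ^ (2 n + 2) × U` and the Betti number in degree `2 c` are between
the rank of the group of cycles of codimension `c` modulo numerical equivalence and the product of this
rank with a polynomial in `n`. -/
theorem result {k : Type u} [Field k] {𝒱 : VarClass k} {ops : CycleOps 𝒱}
    (W : WeilCohomology.{u, v} ops) [IsAlgClosed W.K] (σ : W.K →+* ℂ) (p : ℕ) (hp : p.Prime)
    (Φ : FrobSystem W p) (X U : 𝒱.Obj) (hRX : RiemannHyp Φ σ X) (hRU : RiemannHyp Φ σ U)
    (hX : AlgebraicDuality W X) (D : X.Cycles) (hD : X.IsCyc 1 D) (hbigD : Big ops X D)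
    (E : U.Cycles) (hE : U.IsCyc 1 E) (hbigE : Big ops U E) (n c : ℕ)
    (hc : c ≤ ((Y163.sq X n).prod U).dim) :
    TateUpTo Φ σ ((Y163.sq X n).prod U) c
      (totalBetti W U * totalBetti W X ^ (2 * X.dim) * (2 * (n + 2)) ^ (6 * X.dim + 2) *
        (n + 2) ^ (totalBetti W X ^ 2)) :=
  have : Fact p.Prime := ⟨hp⟩
  Pool.Agent.L7h85.SB.all_codim_X hRX hRU hX hD hbigD hE hbigE n c hc

end Pool.Agent.Results.MP_557161_ag.AllCodimensions
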