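import Pool.Agent.L7h85.SB.Laws

/-!
# MP_557161_ag: the growth of the orders of the poles on the powers of an arbitrary variety

Let `X` be **any** smooth projective variety over an algebraic closure of a finite field, of dimension
`d`, with total Betti number `b`. Let `ρ` be the rank of the multiplicative group generated by all
eigenvalues of the Frobenius endomorphism on the cohomology of `X`. For `n = 1, 2, 3, …` let

* `z n` be the order of the pole at the centre `s = n d` of the zeta function of `X ^ (2 n)` over all
  sufficiently large finite fields,
* `r n` the rank of the group of cycles of codimension `n d` on `X ^ (2 n)` modulo numerical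
  equivalence.

The formula of Tate says that `z n = r n`.

**Theorem.** There is a constant `κ > 0` with

  `z n ~ κ b ^ (2 n) / n ^ (ρ / 2)`,

and either there is an integer `N ≥ 1` with `z n ≤ N r n` for all `n` and

  `r n ~ (κ / N) b ^ (2 n) / n ^ (ρ / 2)`,

or there is a constant `C` with

  `r n ≤ C b ^ (2 n) / n ^ ((ρ + 1) / 2)` for all `n`.

So the orders of the poles of the zeta functions of the powers are now known up to a factor that tends
to one, for every variety, and the formula of Tate for the powers of `X`, up to an asymptotic factor
that is a natural number, is equivalent to a statement on the exponent of `n` only: the ranks grow with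
the same power of `n` as the orders of the poles, or their power of `n` is smaller by at least
`1 / 2`: `z n ≥ c √n r n`. Known before (starting files): `r n ≤ z n ≤ (n + 1) ^ (b ^ 2) r n`
(`PolynomialFactor`) and that `z n / r n` tends to a natural number or to infinity (`IndexLaw`); with the
root law (MP_0f183b_ag.RootLaw) `z n / r n` is at least `c √(n / log n)` in the second case. The order
of growth of `z n` and the removal of the logarithm are new.

The proof. The cohomology of `X` is the sum of generalised eigenspaces of Frobenius; by the theorem of
Deligne and duality `z n` is the number of the pairs of words of length `n` in the `b` eigenvalues with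
the same product up to roots of unity, which is the number of closed walks with `n` steps in a group
`ℤ ^ ρ × F` with `F` finite; the local limit theorem for these walks gives the asymptotic formula. For
the second part let `X ^ m` be decomposed by the projectors onto the generalised eigenspaces (which
are algebraic), into numerical motives `U_a`. By a theorem on semisimple tensor categories (a Nash
inequality on the graph of the simple objects) the number of endomorphisms of the tensor powers of
`U_a` is at least a constant multiple of the square of the dimension, or it is at most
`C (dim U_a) ^ (2 n) / √n`. If for some `m` one of the `U_a` is of the second kind then, in almost all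
words in the `U_a`, this letter occurs with a positive proportion, and the inequality of Cauchy and
Schwarz gives the bound for all powers of `X`. Otherwise the index is finite.

The setting is that of the starting files: `W` is a Weil cohomology theory on a class of smooth proper
varieties closed under products, `Φ` the system of Frobenius endomorphisms; `RiemannHyp Φ σ X` says that
the eigenvalues of Frobenius on `H^i(X)` have the absolute value `q ^ (i / 2)`, this is a condition on the
variety `X` only (all smooth projective varieties satisfy it, by the theorem of Deligne; nothing is
assumed for other varieties); `sq X n = X ^ (2 n + 2)`, and `Growth f a r κ` says that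
`f n ~ κ a ^ (n + 1) / (n + 1) ^ (r / 2)`.
-/

set_option autoImplicit false

open CategoryTheory AlgebraicGeometry

universe u v

namespace Pool.Agent.Results.MP_557161_ag.PoleLaw

open Pool.Agent.H914 Pool.Agent.W534 Pool.Agent.Y163 VarClass Obj WeilCohomology
open Pool.Agent.L7h85.GR (Growth)
open Pool.Agent.L7h85.PW (frobRank)

/-- **The law of the poles.** The order of the pole at the centre of the zeta function of
`sq X n = X ^ (2 n + 2)` is `z n ~ κ b ^ (2 n + 2) / (n + 1) ^ (ρ / 2)`; the rank `r n` of the group of
cycles modulo numerical equivalence is `~ (κ / N) b ^ (2 n + 2) / (n + 1) ^ (ρ / 2)` for an integer `N`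
with `z n ≤ N r n`, or it is at most `C b ^ (2 n + 2) / (n + 1) ^ ((ρ + 1) / 2)`. -/
theorem result {k : Type u} [Field k] {𝒱 : VarClass k} {ops : CycleOps 𝒱}
    (W : WeilCohomology.{u, v} ops) [IsAlgClosed W.K] (σ : W.K →+* ℂ) (p : ℕ) (hp : p.Prime)
    (Φ : FrobSystem W p) (X : 𝒱.Obj) (hRH : RiemannHyp Φ σ X)
    [Nontrivial (W.H X)] :
    ∃ (z r : ℕ → ℕ) (κ : ℝ),
      (∀ n, PoleOrderIs Φ σ (sq X n) ((n + 1) * X.dim) (z n)) ∧
      (∀ n, r n = numRank ops (sq X n) ((n + 1) * X.dim)) ∧
      (∀ n, 0 < r n ∧ r n ≤ z n) ∧
      0 < κ ∧ Growth z (Module.finrank W.K (W.H X) ^ 2) (frobRank Φ X) κ ∧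
      ((∃ N : ℕ, 0 < N ∧ (∀ n, z n ≤ N * r n) ∧
        Growth r (Module.finrank W.K (W.H X) ^ 2) (frobRank Φ X) (κ / N)) ∨
      ∃ C : ℝ, ∀ n : ℕ, (r n : ℝ) ≤ C * ((Module.finrank W.K (W.H X) ^ 2 : ℕ) : ℝ) ^ (n + 1) /
        ((n + 1 : ℕ) : ℝ) ^ (((frobRank Φ X : ℝ) + 1) / 2)) := by
  have : Fact p.Prime := ⟨hp⟩
  exact Pool.Agent.L7h85.SB.pole_law_X hRH

end Pool.Agent.Results.MP_557161_ag.PoleLaw
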