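import Pool.Agent.L7h78.KP.Rh2

/-!
# MP_557161_ag: the formula of Tate for the poles of the zeta functions of products of several K3
surfaces, and the poles for their products with arbitrary varieties

Let `X i`, `i < r`, be varieties over an algebraic closure of the field with `p` elements whose
cohomology is spanned by algebraic classes and by eigenvectors of Frobenius in the middle degree, with
eigenvalues `q ^ (dim X i / 2)` times (up to roots of unity) `e i`-th roots of conjugates of one
number `α i` of a CM field `K i`, and such that the Tate conjecture holds for `X i × X i` in the middle
codimension (`HasWeilNumber`); for example K3 surfaces of finite height, for which all this is known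
(Charles, Madapusi Pera, Kim and Madapusi Pera; Ito, Ito and Koshikawa). Let `Z` be a product of `n i`
copies of `X i`, `i < r`, and of varieties with only algebraic cohomology.

Let `L` be a field of algebraic numbers, and let `S i` be a slope field of `α i`. Assume that, relative
to the field `T` generated by `L` and by the `S j`, `j < i`, each `α i` satisfies one of the following
conditions (`IsAdmissible`):

* `α i` is the Frobenius number of a K3 surface (`IsK3Number`), `2 d` is the degree of `K i`, `m` is
  the local degree, and either `n i ≤ 3` and `(d, m)` is not one of the nine pairs
  `(3, 2), (6, 2), (6, 3), (6, 4), (9, 2), (9, 4), (9, 6), (10, 4), (10, 6)`, or `n i` is arbitrary, `m`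
  is odd, and `(d, m)` is not one of the four pairs `(6, 3), (9, 3), (10, 3), (10, 5)`; and `K i` is
  independent of `T`;
* `α i` is of height one (for example an ordinary K3 surface), or rigid, and independent of `T` in
  degree `n i`.

**Theorem.**

* **The formula of Tate holds for `Z` in all codimensions**: over all finite fields which contain a
  certain finite field, the order of the zeta function of `Z` at `s = j` is the negative of the rank
  of the group of cycles of codimension `j` modulo numerical equivalence (the defect `PoleDefect` is
  zero).
* For **all** varieties `U` which satisfy the Riemann hypothesis and such that the field `L` determines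
  the slopes of `U`, and all `c`, the ranks and the defects satisfy `ρ_c(Z × U) = ∑ ρ_i(Z) ρ_j(U)` and
  `δ_c(Z × U) = ∑ ρ_i(Z) δ_j(U)`, the sums over `i + j = c`, where the defect `δ` is the order of the
  pole minus the rank `ρ`. So the formula of Tate holds for `Z × U` in codimension `c` if
  and only if it holds for `U` in all codimensions `j = c - i` with `ρ_i(Z) ≠ 0`.

For `r = 1` and `L = ℚ` the condition of independence is satisfied. So the formula of Tate for the
poles of the zeta function holds for `X × X × X` for all K3 surfaces `X` over finite fields,
except possibly if the Picard number and the height are one of nine pairs, and for all powers of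
all K3 surfaces of odd height with four exceptions.

Nothing else is assumed on `U`: neither the Tate conjecture, nor the semisimplicity of Frobenius, nor
the coincidence of homological and numerical equivalence. The Riemann hypothesis is assumed for `U`
only (without it the zeta function of `U` may have cancellations); for `X i` and `Z` it follows from
the other hypotheses, and for `Z × U` from the Künneth formula.
-/

set_option autoImplicit false

open CategoryTheory AlgebraicGeometry NumberField

universe u v

namespace Pool.Agent.Results.MP_557161_ag.PolesOfK3Products

open Pool.Agent.H914 Pool.Agent.W534 Pool.Agent.TH132.P Pool.Agent.TH121.KT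
  Pool.Agent.L7h78.KP VarClass Obj WeilCohomology

/-- **The poles of the zeta functions of products of several K3 surfaces, and of their products with
arbitrary independent varieties.** -/
theorem result {k : Type u} [Field k] {𝒱 : VarClass k} {ops : CycleOps 𝒱}
    (W : WeilCohomology.{u, v} ops) [IsAlgClosed W.K] (σ : W.K →+* ℂ) (p : ℕ) [Fact p.Prime]
    (Φ : FrobSystem W p) (ι : AlgebraicClosure ℚ →+* PadicAlgCl p) {r : ℕ} (X : Fin r → 𝒱.Obj)
    (e : Fin r → ℕ)
    {K : Fin r → Type} [∀ i, Field (K i)] [∀ i, NumberField (K i)] [∀ i, IsCMField (K i)]
    (α : ∀ i, K i) (hX : ∀ i, HasWeilNumber Φ (X i) (e i) (α i)) (n : Fin r → ℕ) (Z : 𝒱.Obj)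
    (hZ : IsProductOfCopies W X n Z) (L : IntermediateField ℚ (AlgebraicClosure ℚ))
    (S : Fin r → IntermediateField ℚ (AlgebraicClosure ℚ))
    (hS : ∀ i, IsSlopeField p ι (S i) (α i))
    (hα : ∀ i, IsAdmissible p ι (α i) (tower S L i) (n i)) :
    (∀ j ≤ Z.dim, PoleDefect Φ σ Z j 0) ∧
    ∀ U : 𝒱.Obj, RiemannHyp Φ σ U → HasSlopes p ι L (W.map (Φ.Fr U)).toLinearMap →
      DefectsProduct Φ σ Z U :=
  main' W σ p Φ ι X e α hX n Z hZ L S hS hα

end Pool.Agent.Results.MP_557161_ag.PolesOfK3Products
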